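import Pool.Agent.W945.Lc.Stm

/-!
Project LC (helper945): combining blocks.
-/

namespace Pool.Agent.W314.Lc.COMB

open Finset Pool.Agent.W945.Pw Pool.Agent.W945.Lc

lemma neg_block (hT : TAB.Stm) (hG : GRAFT.Stm) (n l : ℕ) (hl : l < 25) (D : DT n) (α : Bool)
    (hD : Inv D l) :
    ∃ D' : DT n, Inv D' l ∧ D'.vars ⊆ D.vars ∧ ∀ x, D'.eval x = xor (D.eval x) α := by
  cases α with
  | false =>
    exact ⟨D, hD, subset_rfl, fun x => by simp⟩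
  | true =>
    obtain ⟨g1, g2, g3, g4, g5, g6, -⟩ := hG n D (fun b => DT.leaf (!b))
    obtain ⟨hOk, hdep, hcost, k, hk, hk1, hk2, hk3⟩ := hD
    refine ⟨D.graft (fun b => DT.leaf (!b)), ⟨?_, ?_, ?_, 63 - k, by omega, ?_, ?_, ?_⟩, ?_, ?_⟩
    · apply g3 hOk
      · exact True.intro
      · exact True.intro
      · simp [DT.vars]
      · simp [DT.vars]
    · refine g4.trans ?_
      simpa [DT.depth] using hdep
    · rw [g6]
      simpa [DT.cost] using hcost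
    · rw [g5, Nat.cast_sub (by omega : k ≤ 63)]
      simp only [DT.pr, Bool.not_false, Bool.not_true, if_true]
      push_cast
      norm_num
      linarith
    · rw [g5, Nat.cast_sub (by omega : k ≤ 63)]
      simp only [DT.pr, Bool.not_false, Bool.not_true, if_true]
      push_cast
      norm_num
      linarith
    · rw [g6, hT.2.1 l hl k hk]
      simpa [DT.cost] using hk3
    · refine g2.trans ?_
      simp [DT.vars]
    · intro x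
      rw [g1]
      simp [DT.eval]

lemma exists_k (k₁ k₂ : ℕ) (h1 : k₁ < 64) (h2 : k₂ < 64) (P : ℝ) (hP0 : 0 ≤ P)
    (hl : (k₁ : ℝ) * k₂ ≤ 4096 * P) (hu : 4096 * P ≤ ((k₁ : ℝ) + 1) * (k₂ + 1)) :
    ∃ k < 64, k₁ * k₂ / 64 ≤ k ∧ 64 * k < (k₁ + 1) * (k₂ + 1) ∧ (k : ℝ) ≤ 64 * P ∧
      64 * P ≤ k + 1 := by
  have hb : (k₁ + 1) * (k₂ + 1) ≤ 64 * 64 := Nat.mul_le_mul (by omega) (by omega)
  have hf1 : ((⌊64 * P⌋₊ : ℕ) : ℝ) ≤ 64 * P := Nat.floor_le (by positivity)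
  have hf2 : 64 * P < ((⌊64 * P⌋₊ : ℕ) : ℝ) + 1 := Nat.lt_floor_add_one _
  set m : ℕ := ⌊64 * P⌋₊ with hm
  have hm1 : 64 * m ≤ (k₁ + 1) * (k₂ + 1) := by
    have : (64 : ℝ) * m ≤ ((k₁ : ℝ) + 1) * (k₂ + 1) := by linarith
    exact_mod_cast this
  have hm2 : k₁ * k₂ < 64 * (m + 1) := by
    have : (k₁ : ℝ) * k₂ < 64 * ((m : ℝ) + 1) := by linarith
    exact_mod_cast this
  rcases lt_or_eq_of_le hm1 with h | h
  · refine ⟨m, by omega, ?_, h, hf1, hf2.le⟩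
    have : k₁ * k₂ / 64 < m + 1 := by
      rw [Nat.div_lt_iff_lt_mul (by norm_num)]
      linarith
    omega
  · have hpos : 0 < (k₁ + 1) * (k₂ + 1) := by positivity
    have hm0 : 1 ≤ m := by omega
    have hlt : k₁ * k₂ < (k₁ + 1) * (k₂ + 1) := by nlinarith
    have hc : ((m - 1 : ℕ) : ℝ) = (m : ℝ) - 1 := by
      rw [Nat.cast_sub hm0, Nat.cast_one]
    refine ⟨m - 1, by omega, ?_, by omega, by rw [hc]; linarith, ?_⟩
    · have : k₁ * k₂ / 64 < m := by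
        rw [Nat.div_lt_iff_lt_mul (by norm_num)]
        linarith
      omega
    · have h3 : (64 : ℝ) * m = ((k₁ : ℝ) + 1) * (k₂ + 1) := by exact_mod_cast h
      rw [hc]
      linarith

/-- the tree `D₁`, followed by `D₂` if the value is `true` -/
noncomputable def seq {n : ℕ} (D₁ D₂ : DT n) : DT n :=
  D₁.graft (fun b => if b = true then D₂ else DT.leaf false)

lemma seq_inv (hG : GRAFT.Stm) (n l₁ l₂ : ℕ) (D₁ D₂ : DT n) (h1 : Inv D₁ l₁) (h2 : Inv D₂ l₂)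
    (hd : Disjoint D₁.vars D₂.vars) (k : ℕ) (hk : k < 64) (hk1 : (k : ℝ) ≤ 64 * (D₁.pr * D₂.pr))
    (hk2 : 64 * (D₁.pr * D₂.pr) ≤ k + 1) (k₁ k₂ : ℕ) (hp1 : 64 * D₁.pr ≤ k₁ + 1)
    (hc1 : 1000 * D₁.cost ≤ (tab l₁ k₁ : ℝ)) (hc2 : 1000 * D₂.cost ≤ (tab l₂ k₂ : ℝ))
    (ht : 64 * tab l₁ k₁ + (k₁ + 1) * tab l₂ k₂ ≤ 64 * tab (l₁ + l₂) k) :
    Inv (seq D₁ D₂) (l₁ + l₂) ∧ (seq D₁ D₂).vars ⊆ D₁.vars ∪ D₂.vars ∧
      ∀ x, (seq D₁ D₂).eval x = (D₁.eval x && D₂.eval x) := by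
  obtain ⟨g1, g2, g3, g4, g5, g6, -, -, -, g10, g11, g12⟩ :=
    hG n D₁ (fun b => if b = true then D₂ else DT.leaf false)
  obtain ⟨-, -, -, -, -, -, -, -, -, e10, e11, e12⟩ :=
    hG n D₂ (fun b => if b = true then D₂ else DT.leaf false)
  simp only [Bool.false_eq_true, if_false, if_true] at g2 g3 g4 g5 g6
  have hpr : (seq D₁ D₂).pr = D₁.pr * D₂.pr := by
    unfold seq
    rw [g5]
    simp [DT.pr]
  have hcost : (seq D₁ D₂).cost = D₁.cost + D₁.pr * D₂.cost := by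
    unfold seq
    rw [g6]
    simp [DT.cost]
  refine ⟨⟨?_, ?_, ?_, k, hk, ?_, ?_, ?_⟩, ?_, ?_⟩
  · apply g3 h1.1
    · exact True.intro
    · exact h2.1
    · simp [DT.vars]
    · exact hd
  · refine g4.trans ?_
    have := h1.2.1
    have := h2.2.1
    simp only [DT.depth]
    omega
  · rw [hcost]
    have := h1.2.2.1
    have := mul_nonneg g10 e12
    linarith
  · rw [hpr]; exact hk1
  · rw [hpr]; exact hk2
  · rw [hcost]
    have ht' : (64 : ℝ) * (tab l₁ k₁ : ℝ) + ((k₁ : ℝ) + 1) * (tab l₂ k₂ : ℝ) ≤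
        64 * (tab (l₁ + l₂) k : ℝ) := by exact_mod_cast ht
    have h3 : D₁.pr * (1000 * D₂.cost) ≤ D₁.pr * (tab l₂ k₂ : ℝ) :=
      mul_le_mul_of_nonneg_left hc2 g10
    have h4 : (64 * D₁.pr) * (tab l₂ k₂ : ℝ) ≤ ((k₁ : ℝ) + 1) * (tab l₂ k₂ : ℝ) :=
      mul_le_mul_of_nonneg_right hp1 (Nat.cast_nonneg _)
    nlinarith
  · unfold seq
    refine g2.trans ?_
    simp [DT.vars]
  · intro x
    unfold seq
    rw [g1]
    cases h : D₁.eval x <;> simp [DT.eval]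

lemma and_block (hT : TAB.Stm) (hG : GRAFT.Stm) (n l₁ l₂ : ℕ) (D₁ D₂ : DT n) (a1 : 1 ≤ l₁)
    (a2 : l₁ ≤ 12) (b1 : 1 ≤ l₂) (b2 : l₂ ≤ 12) (h1 : Inv D₁ l₁) (h2 : Inv D₂ l₂)
    (hd : Disjoint D₁.vars D₂.vars) :
    ∃ D : DT n, Inv D (l₁ + l₂) ∧ D.vars ⊆ D₁.vars ∪ D₂.vars ∧
      ∀ x, D.eval x = (D₁.eval x && D₂.eval x) := by
  obtain ⟨-, -, -, -, -, -, -, -, -, g10, g11, g12⟩ := hG n D₁ (fun b => DT.leaf b)
  obtain ⟨-, -, -, -, -, -, -, -, -, e10, e11, e12⟩ := hG n D₂ (fun b => DT.leaf b)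
  obtain ⟨hOk1, hdep1, hcost1, k₁, hk1, p1, q1, c1⟩ := h1
  obtain ⟨hOk2, hdep2, hcost2, k₂, hk2, p2, q2, c2⟩ := h2
  have hP0 : 0 ≤ D₁.pr * D₂.pr := mul_nonneg g10 e10
  have hlo : (k₁ : ℝ) * k₂ ≤ 4096 * (D₁.pr * D₂.pr) := by
    have := mul_le_mul p1 p2 (Nat.cast_nonneg _) (by positivity)
    nlinarith
  have hup : 4096 * (D₁.pr * D₂.pr) ≤ ((k₁ : ℝ) + 1) * (k₂ + 1) := by
    have := mul_le_mul q1 q2 (by positivity) (by positivity)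
    nlinarith
  obtain ⟨k, hk, hka, hkb, hkc, hkd⟩ := exists_k k₁ k₂ hk1 hk2 _ hP0 hlo hup
  have t1 : tab l₁ k₁ ≠ 0 := by
    intro h
    rw [h] at c1
    norm_num at c1
    linarith
  have t2 : tab l₂ k₂ ≠ 0 := by
    intro h
    rw [h] at c2
    norm_num at c2
    linarith
  rcases hT.2.2.1 l₁ (by omega) l₂ (by omega) a1 b1 k₁ hk1 k₂ hk2 t1 t2 k hk hka hkb with h | h
  · exact ⟨seq D₁ D₂, seq_inv hG n l₁ l₂ D₁ D₂ ⟨hOk1, hdep1, hcost1, k₁, hk1, p1, q1, c1⟩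
      ⟨hOk2, hdep2, hcost2, k₂, hk2, p2, q2, c2⟩ hd k hk hkc hkd k₁ k₂ q1 c1 c2 h⟩
  · have h' : 64 * tab l₂ k₂ + (k₂ + 1) * tab l₁ k₁ ≤ 64 * tab (l₂ + l₁) k := by
      rw [add_comm l₂ l₁]
      exact h
    obtain ⟨r1, r2, r3⟩ := seq_inv hG n l₂ l₁ D₂ D₁ ⟨hOk2, hdep2, hcost2, k₂, hk2, p2, q2, c2⟩
      ⟨hOk1, hdep1, hcost1, k₁, hk1, p1, q1, c1⟩ hd.symm k hk (by rw [mul_comm D₂.pr]; exact hkc)
      (by rw [mul_comm D₂.pr]; exact hkd) k₂ k₁ q2 c2 c1 h'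
    refine ⟨seq D₂ D₁, ?_, ?_, ?_⟩
    · rw [add_comm l₁ l₂]
      exact r1
    · rw [Finset.union_comm]
      exact r2
    · intro x
      rw [r3, Bool.and_comm]

theorem main : COMB.Stm := by
  intro hT hG n
  refine ⟨?_, ?_⟩
  · intro i
    refine ⟨?_, ?_, ?_, 32, by norm_num, ?_, ?_, ?_⟩
    · simp [DT.Ok, DT.vars]
    · simp [DT.depth]
    · simp [DT.cost]
    · simp [DT.pr]
      norm_num
    · simp [DT.pr]
      norm_num
    · have h := hT.1.2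
      have h' : ((1000 : ℕ) : ℝ) ≤ (tab 1 32 : ℝ) := Nat.cast_le.2 h
      have hc : (DT.node i (DT.leaf false) (DT.leaf true)).cost = 1 := by simp [DT.cost]
      rw [hc, mul_one]
      refine le_trans ?_ h'
      norm_num
  · intro l₁ l₂ D₁ D₂ α β a1 a2 b1 b2 h1 h2 hd
    obtain ⟨E₁, i1, v1, e1⟩ := neg_block hT hG n l₁ (by omega) D₁ α h1
    obtain ⟨E₂, i2, v2, e2⟩ := neg_block hT hG n l₂ (by omega) D₂ β h2
    obtain ⟨D, hD, hv, he⟩ := and_block hT hG n l₁ l₂ E₁ E₂ a1 a2 b1 b2 i1 i2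
      (Finset.disjoint_of_subset_left v1 (Finset.disjoint_of_subset_right v2 hd))
    refine ⟨D, hD, hv.trans (Finset.union_subset_union v1 v2), ?_⟩
    intro x
    rw [he, e1, e2]

end Pool.Agent.W314.Lc.COMB
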